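import Pool.Agent.X157.H.Irr
import Pool.Agent.TH167.SH.Fam

set_option autoImplicit false

/-!
# Which classes with equal multiplicities, double and simple points contain integral curves

Let `P` be `r` very general points of the complex projective plane, and let the multiplicities `w` be
equal to `m ≥ 1` at the `n` points of a set `S` and at most `2` at the others, where `n ≥ 37`, or
`n = 11, 13, 15, 21`, or `n ≥ 16` is a square.

1. If the class `(d; w)` is effective, then its `h¹` vanishes (for `n = 11, 15` if its dimension is at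
   least `1` or there is another point); so the weak conjecture of Harbourne and Hirschowitz holds for
   it.
2. If the dimension is at least `1`, or it is `0` and there is a simple point off `S`, then the class
   contains an INTEGRAL curve: there is an irreducible form of degree `d` with multiplicities exactly
   `w` at the points.

Proof of 2: add simple points until the class is rigid. The irreducible curve `A` of the rigid class
`D = A + M` through the last simple point `q` is mapped to itself by all the permutations of the points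
which preserve the multiplicities and `q`, as the member is reduced and simple at `q`. If `M` is not
zero, then `A`, `M` and `D` are not special, so `A M = 0`, and Nagata's inequality and the index
theorem exclude this; for `n = 11, 15` and a uniform `M`, which could be special, `A` is above the
threshold and `A M + χ (M) > 1`.
-/

namespace Pool.Agent.Results.MP_6ec8e4_ag.IrreducibleMembers

open MvPolynomial Pool.Agent.TH167 Pool.Agent.TH167.SH Pool.Agent.TH167.SHDefs Pool.Agent.X157.H
  Pool.Agent.X157.W Pool.Agent.W609.CR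

/-- The dimension of the linear system of the plane curves of degree `d` with multiplicities at
least `w i` at the points `P i`. -/
noncomputable def dimension {r : ℕ} (P : Fin r → Fin 2 → ℂ) (d : ℕ) (w : Fin r → ℕ) : ℤ :=
  (Module.finrank ℂ ↥(sys P d w) : ℤ) - 1

/-- The virtual dimension. -/
def vdim {r : ℕ} (d : ℕ) (w : Fin r → ℕ) : ℤ :=
  ((d + 2).choose 2 : ℤ) - 1 - ∑ i, ((w i + 1).choose 2 : ℤ)

/-- On `S` all multiplicities are `m ≥ 1`, at the other points they are at most `2`; the number of the
points of `S` is at least `37`, or `11`, `13`, `15` or `21`, or a square and at least `16`. -/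
def EqualAndTwo {r : ℕ} (S : Finset (Fin r)) (m : ℕ) (w : Fin r → ℕ) : Prop :=
  1 ≤ m ∧ (∀ i ∈ S, w i = m) ∧ (∀ i, i ∉ S → w i ≤ 2) ∧
    (37 ≤ S.card ∨ S.card = 11 ∨ S.card = 13 ∨ S.card = 15 ∨ S.card = 21 ∨
      (16 ≤ S.card ∧ IsSquare S.card))

theorem result (r : ℕ) : ∃ Z : ℕ → MvPolynomial (Fin r × Fin 2) ℂ, (∀ k, Z k ≠ 0) ∧
    ∀ P : Fin r → Fin 2 → ℂ, (∀ k, eval (fun ij : Fin r × Fin 2 => P ij.1 ij.2) (Z k) ≠ 0) →
      ∀ (d m : ℕ) (S : Finset (Fin r)) (w : Fin r → ℕ), EqualAndTwo S m w →
        (0 ≤ dimension P d w →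
          (S.card = 11 ∨ S.card = 15 → 1 ≤ dimension P d w ∨ ∃ i, i ∉ S ∧ 1 ≤ w i) →
            dimension P d w = vdim d w) ∧
        (1 ≤ dimension P d w ∨ (0 ≤ dimension P d w ∧ ∃ i, i ∉ S ∧ w i = 1) →
          ∃ G : MvPolynomial (Fin 3) ℂ, Irreducible G ∧ G.IsHomogeneous d ∧
            ∀ i, G ∈ pt (P i) ^ w i ∧ G ∉ pt (P i) ^ (w i + 1)) := by
  obtain ⟨Z, hZ, h⟩ := SH.exists_fam (Fin r × Fin 2)
  refine ⟨Z, hZ, fun P hP0 d m S w hw => ?_⟩
  have hP : Gen P := (h _).1 hP0
  obtain ⟨hm, hwS, hw2, hn⟩ := hw
  have hn10 : 10 ≤ S.card := by omega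
  have hC : Uns S.card ∨ S.card = 11 ∨ S.card = 15 := by
    rcases hn with h | h | h | h | h | h
    · exact Or.inl (uns_of hn10 (Or.inl h))
    · exact Or.inr (Or.inl h)
    · exact Or.inl (uns_of hn10 (Or.inr (Or.inl h)))
    · exact Or.inr (Or.inr h)
    · exact Or.inl (uns_of hn10 (Or.inr (Or.inr (Or.inl h))))
    · exact Or.inl (uns_of hn10 (Or.inr (Or.inr (Or.inr h.2))))
  have hG : Good S.card := by
    rcases hC with h | h
    · exact good_of_uns h
    · exact good_eleven h
  unfold dimension
  rw [SH.sys_eq]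
  constructor
  · intro hdim hex
    obtain ⟨k, hk'⟩ : ∃ k, Module.finrank ℂ ↥(VS (fun j => aff (P j)) w d) = k + 1 :=
      ⟨Module.finrank ℂ ↥(VS (fun j => aff (P j)) w d) - 1, by omega⟩
    have h3 := full_chi hn10 hG d m hm k r P hP S rfl w hwS hw2 (by
      rcases hC with h | h
      · exact Or.inl h
      · rcases hex h with h5 | ⟨i, hi, hi'⟩
        · exact Or.inr (Or.inr (by omega))
        · exact Or.inr (Or.inl ⟨i, hi, by omega⟩)) hk'
    have h4 : vdim d w = chi d w - 1 := by
      unfold vdim chi
      ring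
    rw [h4, h3, hk']
    push_cast
    ring
  · intro hdim
    obtain ⟨k, hk'⟩ : ∃ k, Module.finrank ℂ ↥(VS (fun j => aff (P j)) w d) = k + 1 :=
      ⟨Module.finrank ℂ ↥(VS (fun j => aff (P j)) w d) - 1, by omega⟩
    obtain ⟨G, g1, g2, g3⟩ := irr_full hn10 hC d m hm k r P hP S rfl w hwS hw2 (by
      rcases hdim with h5 | ⟨-, h5⟩
      · exact Or.inr (by omega)
      · exact Or.inl h5) hk'
    have hcv : Curve P G d w := SH.curve_iff.2 ⟨g1, g2, g3⟩
    exact ⟨G, hcv.irreducible, hcv.homogeneous, hcv.mult⟩

end Pool.Agent.Results.MP_6ec8e4_ag.IrreducibleMembers
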