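import Pool.Agent.Results.MP_1dafdd_ag.SparseMultiplicityBound

set_option autoImplicit false

/-!
# Effective plane classes with `h^1 = 0`: multiplicities bounded by squares, primes, sparse sequences

Let `n ≥ 10` (the new cases are `n ≤ 36`). Call `m ≥ 1` good if `h^1 (L) = 0` for ALL effective classes
`L = (d; w)` (integral or not) at general points of the plane such that `n` of the multiplicities are at most `m`, the others (any number)
are at most `1`, and the first `n` are equal to `m` or `n m (m + 1) / 2 ≤ (d + 1) (d + 2) / 2`. The `m` which are not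
good have upper density at most `bad n < 1` along all sequences with equidistributed `√n m / 3`, among the values of
every nonconstant integral polynomial, among the primes, and along `⌊α j ^ c⌋`, `c > 1`, for all `α > 0` outside one
set of dimension less than `1`; `bad n = 0` for `n ≥ 37`, `n = 13`, `n = 21`, squares, and `bad 10 < 0.163`,
`bad 11 < 0.053`, `bad 15 < 0.146`.
-/

namespace Pool.Agent.Results.MP_6ec8e4_ag.SparseMultiplicityBound

open MvPolynomial Pool.Agent.X134.UD Pool.Agent.X134.UF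
open Pool.Agent.H534R3.UDist (Weyl)
open MP_d03834_ag.SparseMultiplicities (bad)
open MP_1dafdd_ag.SparseMultiplicityBound (upperLE_mono upperLEPrimes_mono)

/-- The space `H^0 (L)`: the forms of degree `d` in the `w i`-th powers of the ideals of the points `P i`. -/
noncomputable def sections {k : ℕ} (P : Fin k → Fin 2 → ℂ) (d : ℕ) (w : Fin k → ℕ) :
    Submodule ℂ (MvPolynomial (Fin 3) ℂ) :=
  homogeneousSubmodule (Fin 3) ℂ d ⊓ Submodule.restrictScalars ℂ
    (⨅ i : Fin k, (Ideal.span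
      ({X 0 - C (P i 0) * X 2, X 1 - C (P i 1) * X 2} : Set (MvPolynomial (Fin 3) ℂ))) ^ (w i))

/-- `h^1 (L)`: the failure of the fat point scheme to impose independent conditions. -/
noncomputable def h1 {k : ℕ} (P : Fin k → Fin 2 → ℂ) (d : ℕ) (w : Fin k → ℕ) : ℤ :=
  (Module.finrank ℂ ↥(sections P d w) : ℤ) -
    (((d + 2).choose 2 : ℤ) - ∑ i, ((w i + 1).choose 2 : ℤ))

/-- At general points: if there is a curve in `|L|`, then `h^1 (L) = 0`. -/
def WeakHH {k : ℕ} (d : ℕ) (w : Fin k → ℕ) : Prop :=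
  ∃ F : MvPolynomial (Fin k × Fin 2) ℂ, F ≠ 0 ∧ ∀ P : Fin k → Fin 2 → ℂ,
    eval (fun ij : Fin k × Fin 2 => P ij.1 ij.2) F ≠ 0 → sections P d w ≠ ⊥ → h1 P d w = 0

/-- the statement holds for all classes dominated by `m ^ n` -/
def Good (n m : ℕ) : Prop := ∀ (k d : ℕ) (w : Fin k → ℕ), DominatedBy n m d w → WeakHH d w

/-- `m` is positive and not good -/
def Bad (n m : ℕ) : Prop := 1 ≤ m ∧ ¬ Good n m

theorem bad_of {n m : ℕ} (h : Bad n m) : MP_1dafdd_ag.SparseMultiplicityBound.Bad n m := by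
  refine ⟨h.1, fun h0 => h.2 fun k d w hw => ?_⟩
  obtain ⟨F, hF, H⟩ := h0 k d w hw
  refine ⟨F, hF, fun P hP hne => ?_⟩
  have h2 := H P hP
  have hfin : Module.Finite ℂ ↥(homogeneousSubmodule (Fin 3) ℂ d) :=
    Module.Finite.iff_fg.2 (homogeneousSubmodule_fg _ _ d)
  have h3 : FiniteDimensional ℂ ↥(sections P d w) :=
    Submodule.finiteDimensional_of_le (inf_le_left : sections P d w ≤ homogeneousSubmodule (Fin 3) ℂ d)
  have h4 : 0 < Module.finrank ℂ ↥(sections P d w) := by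
    rw [Module.finrank_pos_iff]
    exact Submodule.nontrivial_iff_ne_bot.2 hne
  have h5 : (Module.finrank ℂ ↥(sections P d w) : ℤ) =
      max 0 (((d + 2).choose 2 : ℤ) - ∑ i, ((w i + 1).choose 2 : ℤ)) := h2
  unfold h1
  rcases max_choice 0 (((d + 2).choose 2 : ℤ) - ∑ i, ((w i + 1).choose 2 : ℤ)) with h6 | h6
  · rw [h6] at h5
    omega
  · rw [h6] at h5
    omega

theorem result :
    (∀ n : ℕ, 10 ≤ n →
      (∀ x : ℕ → ℕ, Weyl (fun j => Real.sqrt n / 3 * x j) → UpperLE (fun j => Bad n (x j)) (bad n)) ∧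
      (∀ P : Polynomial ℤ, 1 ≤ P.natDegree →
        UpperLE (fun j => ∃ m : ℕ, (m : ℤ) = P.eval (j : ℤ) ∧ Bad n m) (bad n)) ∧
      UpperLEPrimes (Bad n) (bad n)) ∧
    (∀ c : ℝ, 1 < c → ∃ κ : ℝ, 0 < κ ∧ κ < 1 ∧ ∃ E : Set ℝ, dimH E ≤ ENNReal.ofReal (1 - κ) ∧
      ∀ α : ℝ, 0 < α → α ∉ E → ∀ n : ℕ, 10 ≤ n →
        UpperLE (fun j => Bad n ⌊α * (j : ℝ) ^ c⌋₊) (bad n)) ∧
    (∀ n : ℕ, 10 ≤ n → bad n < 1) ∧ bad 10 < 0.163 ∧ bad 11 < 0.053 ∧ bad 15 < 0.146 := by
  obtain ⟨h1, h2, h3⟩ := MP_1dafdd_ag.SparseMultiplicityBound.result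
  refine ⟨fun n hn => ?_, fun c hc => ?_, h3⟩
  · obtain ⟨a1, a2, a3⟩ := h1 n hn
    refine ⟨fun x hx => upperLE_mono (fun j hj => bad_of hj) (a1 x hx),
      fun P hP => upperLE_mono (fun j hj => ?_) (a2 P hP), upperLEPrimes_mono (fun j hj => bad_of hj) a3⟩
    obtain ⟨m, hm, hm2⟩ := hj
    exact ⟨m, hm, bad_of hm2⟩
  · obtain ⟨κ, hκ0, hκ1, E, hE, H⟩ := h2 c hc
    exact ⟨κ, hκ0, hκ1, E, hE, fun α hα hαE n hn =>
      upperLE_mono (fun j hj => bad_of hj) (H α hα hαE n hn)⟩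

end Pool.Agent.Results.MP_6ec8e4_ag.SparseMultiplicityBound
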